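import Pool.Agent.X39.Near.Dep
import Pool.Agent.X39.Near.DepInt
import Pool.Agent.Results.MP_c9768e_nt.SmallDiscs

/-!
# Split semi-elliptic logarithms on algebraic curves, at ALL algebraic points close to any point outside a set of
# dimension zero

Let `L` be a lattice, `U` a connected open set in `ℂ`. Let `t_1, …, t_s` be analytic functions on `U` such that the
`exp(t_l)` are algebraic functions and no nontrivial integral combination of the `t_l` is constant, and let
`p_1, …, p_a, q_1, …, q_b` be analytic functions on `U` with values outside the lattice such that the `℘(p_i)` and the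
`ζ(q_i)` are algebraic functions and no nontrivial combination of the `p_i, q_i` with coefficients in the ring of
endomorphisms of `ℂ / L` is constant (the structure `Curve` of the starting file `SmallDiscs`). If the algebraic
functions are defined over the field of algebraic numbers, their values at algebraic points `x` are algebraic: then
`t_l(x)`, `p_i(x)`, `q_i(x)` are numbers as in the question, and the conjecture says that these `s + a + b` numbers are
algebraically independent if the independence condition holds for them.

We prove, outside a set `E` of Hausdorff dimension `0` (for all number fields, degrees and scales): for every `x` in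
`U`, the `s + 2 (a + b)` numbers `t_l(y)`, `p_i(y)`, `ζ(p_i(y))`, `q_i(y)`, `℘(q_i(y))`, at ALL points `y` of a number
field close to `x`, that is `|y - x| ≤ T ^ (-ω)`, `T` the height of `y` and `ω > 0` arbitrarily small, satisfy no relation
of bounded degree with coefficients of polynomial size, even approximately; the coefficients may be polynomials in
arbitrary constants `ξ_1, …, ξ_g` fixed in advance (for instance `π`, the invariants, periods and quasi-periods of `L`).
In particular nonzero integral polynomials of degree at most `d` and of height at most `T ^ A` have values of absolute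
value greater than `T ^ (-B)` at these numbers. For `ω < 1` there are many such rational numbers `y` for all large `T`.

The starting result `SmallDiscs` has a bounded number of exceptions in each disc of radius `T ^ (-δ)`; here there is no
exception from some point on, if the centre is outside `E`.

Proof: these functions are algebraically independent over `ℂ(z)` (Ax's theorem, `Pool.Agent.R349.Semi`); the levels of the
library give, on compact sets, at most `C T ^ ε` exceptional points of height `T`, for every `ε > 0`, and so a limsup set
of dimension `0` (`Pool.Agent.X39.Near`).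
-/

set_option autoImplicit false

open MvPolynomial NumberField

namespace Pool.Agent.Results.MP_c9768e_nt.ApproximationsOfAllNumbers

open Pool.Agent.X39.Near (Size Dep)
open Pool.Agent.Results.MP_c9768e_nt.SmallDiscs (Curve value value_an value_ind)

/-- There is no relation between the numbers `v`: (1) in the sense of `Dep`, (2) for integral polynomials. -/
def NoRelation {J : Type} {g : ℕ} (v : J → ℂ) (ξ : Fin g → ℂ) (F : Type) [Field F] [NumberField F] (ι : F →+* ℂ)
    (d A : ℕ) (B T : ℝ) : Prop :=
  ¬ Dep v ξ F ι d A B T ∧
  ∀ P : MvPolynomial J ℤ, P ≠ 0 → (∀ j, P.degreeOf j ≤ d) →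
    (∀ e, |((P.coeff e : ℤ) : ℝ)| ≤ T ^ A) → T ^ (-B) < ‖aeval v P‖

/-- **Theorem.** Let `t_l`, `p_i`, `q_i` be functions on `U` as above, and `ξ_1, …, ξ_g` complex numbers. There is a set
`E` of complex numbers of Hausdorff dimension `0` such that: (1) for all `x` in `U` outside `E`, all number fields
`F` with an embedding `ι` in `ℂ`, all `d`, `A` and `ω > 0` there are `B`, `T₁` such that for all `T ≥ T₁` and all `y ∈ F`,
quotients of integers with conjugates at most `T`, with `|ι y - x| ≤ T ^ (-ω)`, there is no relation between the numbers
`t_l(y)`, `p_i(y)`, `ζ(p_i(y))`, `q_i(y)`, `℘(q_i(y))`; (2) for all irrational real `x` in `U` outside `E` and all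
`d`, `A` there is `B` such that this holds over `ℚ` at the convergents `y` of `x`, at the level of the denominator, from
some point on. -/
theorem result {g s a b : ℕ} (U : Set ℂ) (L : PeriodPair) (t : Fin s → ℂ → ℂ) (p : Fin a ⊕ Fin b → ℂ → ℂ)
    (h : Curve U L t p) (ξ : Fin g → ℂ) :
    ∃ E : Set ℂ, dimH E = 0 ∧
      (∀ x ∈ U, x ∉ E → ∀ (F : Type) [Field F] [NumberField F] (ι : F →+* ℂ) (d A : ℕ) (ω : ℝ), 0 < ω →
        ∃ B T₁ : ℝ, ∀ T : ℝ, T₁ ≤ T → ∀ y : F, Size F T y → ‖ι y - x‖ ≤ T ^ (-ω) →
          NoRelation (value L t p (ι y)) ξ F ι d A B T) ∧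
      ∀ x : ℝ, Irrational x → (x : ℂ) ∈ U → (x : ℂ) ∉ E → ∀ d A : ℕ, ∃ (B : ℝ) (n₀ : ℕ), ∀ k : ℕ, n₀ ≤ k →
        NoRelation (value L t p ((x.convergent k : ℚ) : ℂ)) ξ ℚ (algebraMap ℚ ℂ) d A B (x.convergent k).den := by
  classical
  obtain ⟨E, hE0, h1, h2⟩ := Pool.Agent.X39.Near.near_dep U h.isOpen (fun k z => value L t p z k)
    (fun k y hy => value_an h k y hy) (value_ind h) ξ
  refine ⟨E, hE0, fun x hxU hx F _ _ ι d A ω hω => ?_, fun x hx hxU hxE d A => ?_⟩
  · obtain ⟨B, T₁, h4⟩ := h1 x hxU hx F ι d A ω hω
    refine ⟨B, max T₁ 1, fun T hT y hy hyx => ?_⟩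
    have h5 : ¬ Dep (value L t p (ι y)) ξ F ι d A B T := h4 T ((le_max_left _ _).trans hT) y hy hyx
    have hT0 : 0 < T := lt_of_lt_of_le one_pos ((le_max_right _ _).trans hT)
    exact ⟨h5, fun P hP hPd hPA => Pool.Agent.X39.Near.int_of_not_dep h5 hT0 P hP hPd fun e => by
      exact_mod_cast hPA e⟩
  · obtain ⟨B, n₀, h4⟩ := h2 x hx hxU hxE d A
    refine ⟨B, n₀, fun k hk => ?_⟩
    have h5 : ¬ Dep (value L t p ((x.convergent k : ℚ) : ℂ)) ξ ℚ (algebraMap ℚ ℂ) d A B (x.convergent k).den :=
      h4 k hk
    have hT0 : (0 : ℝ) < (x.convergent k).den := by exact_mod_cast (x.convergent k).pos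
    exact ⟨h5, fun P hP hPd hPA => Pool.Agent.X39.Near.int_of_not_dep h5 hT0 P hP hPd fun e => by
      exact_mod_cast hPA e⟩

end Pool.Agent.Results.MP_c9768e_nt.ApproximationsOfAllNumbers
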