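import Pool.Agent.Seat74.TR.Par
import Pool.Agent.Results.MP_c9768e_nt.ConjugateSemiElliptic

/-!
# Split semi-elliptic logarithms in families with several parameters, at ALL points of number fields near the points
# outside a set of small dimension

Let `U` be a connected open set in `ℂ ^ X`, `X` any finite set. Let `t_1, …, t_a` be analytic functions on `U` such that
the `exp(t_l)` are algebraic functions and no nontrivial integral combination of the `t_l` is constant, and let
`p_1, …, p_n` be analytic functions with values outside one of finitely many lattices `Ω_c` (its type), such that for each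
`i` one of the functions `℘(p_i)`, `ζ(p_i)` is algebraic; the lattices have pairwise no homomorphisms, and for each `c` no
nontrivial combination of the `p_i` of type `c` with coefficients in the ring of endomorphisms of `ℂ / Ω_c` is constant
(the structure `Family` of the starting file `ConjugateSemiElliptic`; algebraic means algebraic over the field of the
rational functions of the coordinates). If the algebraic functions are defined over the field of algebraic numbers, the
numbers `t_l(x)`, `p_i(x)` at points `x` with algebraic coordinates are numbers as in the question, even with several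
elliptic curves, and should be algebraically independent if they satisfy the independence condition.

We show: let `c_0, c_1, …` be any complex numbers (for instance all elements of the field generated by the periods and
quasi-periods of all the lattices). There is a set `E` of Hausdorff dimension at most `2 |X| - 2` (so of dimension `0`
for one parameter) such that for ALL `z` in `U` outside `E`, all number fields `K ⊂ ℂ`, all `k` and all exponents
`ω > 0` (arbitrarily small), for all large `T`, at ALL points `x` of `K ^ X` of height at most `T` with
`|x_j - z_j| ≤ T ^ (-ω)`, the `a + 2 n` numbers `t_l(x)`, `p_i(x)`, `ζ(p_i(x))` (or `℘(p_i(x))`, if `ζ(p_i)` is the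
algebraic function) satisfy no nonzero polynomial equation of partial degrees at most `k` whose coefficients are of the
form `∑_{i < k} c_i a_i` with integers `a_i` of `K` all of whose conjugates are at most `T ^ k`. For `|X| ≥ 2` the
dimension cannot be smaller in general: there are hypersurfaces on which the functions satisfy a linear relation, for
instance `z_1 = z_2` for `t_1 = log z_1`, `t_2 = log z_2`.

The starting result `ConjugateSemiElliptic` is about 100 percent of the points with given denominators (and all
conjugates). Here no exceptional point is near `z` from some point on.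

Proof: the functions are independent by Ax's theorem in several variables (`ConjugateSemiElliptic.independent`); for
fixed `k` the exceptional points of height at most `T` lie on `C T ^ ε` hypersurfaces of bounded degree
(`Pool.Agent.N207.GS.comp`), and the points near such hypersurfaces form a set of small dimension (uniform coverings of
the zeros of polynomials of bounded degree, `Pool.Agent.Helper264.NT.near_all`); there are only countably many number
fields in `ℂ`.
-/

set_option autoImplicit false

open NumberField
open scoped ENNReal
open Pool.Agent

namespace Pool.Agent.Results.MP_c9768e_nt.FamiliesNearEveryPoint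

open Pool.Agent.Results.MP_c9768e_nt.ConjugateSemiElliptic (Family value independent)

/-- `x` is a quotient of two integers of `K` all of whose conjugates are at most `T` in absolute value -/
def Height (K : Type) [Field K] [NumberField K] (T : ℝ) (x : K) : Prop :=
  ∃ a b : 𝓞 K, b ≠ 0 ∧ house (a : K) ≤ T ∧ house (b : K) ≤ T ∧ x = a / b

/-- the numbers `v` satisfy a nonzero polynomial equation of partial degrees at most `k`, whose coefficients are
combinations `∑ c i * a i`, `i < k`, with integers `a i` of `K` all of whose conjugates are at most `T ^ k` -/
def Related {σ : Type} (v : σ → ℂ) (K : Type) [Field K] [NumberField K] (io : K →+* ℂ) (k : ℕ) (c : ℕ → ℂ)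
    (T : ℝ) : Prop :=
  ∃ R : MvPolynomial σ ℂ, R ≠ 0 ∧ (∀ y, R.degreeOf y ≤ k) ∧
    (∀ m, ∃ a : Fin k → 𝓞 K, (∀ i (φ : K →+* ℂ), ‖φ (a i : K)‖ ≤ T ^ (k : ℝ)) ∧
      R.coeff m = ∑ i : Fin k, c i * io (a i : K)) ∧
    MvPolynomial.eval v R = 0

theorem value_an {X : Type} [Fintype X] {q a n : ℕ} {U : Set (X → ℂ)} {Ω : Fin q → PeriodPair} {ty : Fin n → Fin q}
    {kind : Fin n → Bool} {t : Fin a → (X → ℂ) → ℂ} {p : Fin n → (X → ℂ) → ℂ} (h : Family U Ω ty kind t p)
    (y : Fin a ⊕ (Fin n ⊕ Fin n)) : AnalyticOnNhd ℂ (value Ω ty kind t p y) U := by
  rcases y with l | i | i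
  · exact h.analytic_t l
  · exact h.analytic_p i
  · by_cases hk : kind i = true
    · have h1 : value Ω ty kind t p (Sum.inr (Sum.inr i)) = N207.AX.yq Ω ty p (Sum.inr (Sum.inl i)) := by
        funext z
        simp only [value, hk, if_true]
        rfl
      rw [h1]
      exact N207.AX.yq_an h.analytic_p h.notMem _
    · have h1 : value Ω ty kind t p (Sum.inr (Sum.inr i)) = N207.AX.yq Ω ty p (Sum.inr (Sum.inr i)) := by
        funext z
        simp only [value, hk]
        rfl
      rw [h1]
      exact N207.AX.yq_an h.analytic_p h.notMem _

/-- **Theorem.** Let a family of `a` logarithms and `n` elliptic logarithms as above be given. For every sequence `c` of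
complex numbers there is a set `E` of Hausdorff dimension at most `2 (|X| - 1)` with the following property: for all
`z ∈ U` outside `E`, all number fields `K ⊂ ℂ`, all `k` and `ω > 0` there is `T₀` such that for all `T ≥ T₀` and all
`x ∈ K ^ X` of height at most `T` with `|x_j - z_j| ≤ T ^ (-ω)` the `a + 2 n` numbers at `x` are not related. -/
theorem result (X : Type) [Fintype X] [DecidableEq X] [Nonempty X] (q a n : ℕ) (U : Set (X → ℂ))
    (Ω : Fin q → PeriodPair) (ty : Fin n → Fin q) (kind : Fin n → Bool) (t : Fin a → (X → ℂ) → ℂ)
    (p : Fin n → (X → ℂ) → ℂ) (h : Family U Ω ty kind t p) (c : ℕ → ℂ) :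
    ∃ E : Set (X → ℂ), dimH E ≤ ((2 * (Fintype.card X - 1) : ℕ) : ℝ≥0∞) ∧ ∀ z ∈ U, z ∉ E →
      ∀ (K : IntermediateField ℚ ℂ) [NumberField K] (k : ℕ) (ω : ℝ), 0 < ω → ∃ T₀ : ℝ, ∀ T ≥ T₀,
        ∀ x : X → K, (∀ j, Height K T (x j) ∧ ‖(x j : ℂ) - z j‖ ≤ T ^ (-ω)) →
          ¬ Related (fun y => value Ω ty kind t p y fun j => (x j : ℂ)) K (algebraMap K ℂ) k c T := by
  classical
  obtain ⟨E, hE1, hE2⟩ := Pool.Agent.Seat74.TR.near_ind h.isPreconnected h.isOpen h.nonempty (value_an h)
    (independent (N945.AX.ell (N301.AX.ind N878.AX.line)) h) c
  exact ⟨E, hE1, fun z hz hzE K _ k ω hω => hE2 z hz hzE K k ω hω⟩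

end Pool.Agent.Results.MP_c9768e_nt.FamiliesNearEveryPoint
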