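import Pool.Agent.Seat74.TR.Alm
import Pool.Agent.Results.MP_c9768e_nt.GrowingDegreeTuples

/-!
# Elliptic logarithms, their quasi-logarithms and logarithms at all integral vectors near the multiples of almost every
# real vector

Let `L` be a lattice with rational invariants, `ω_0 = 1, ω_1, …, ω_m` algebraic numbers (for instance an integral basis of a
number field) and `θ_1, …, θ_r` distinct natural numbers. Let `λ_n ≥ 1` be any sequence for which the sum of `λ_n ^ (-σ)`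
converges, and `b_n` any real vectors of size `O (λ_n)`; for instance `λ_n = 2 ^ n` or `λ_n = (3 / 2) ^ n`, where any
`σ > 0` is possible, or `λ_n = n ^ a` with `a > 1 / σ`. We prove: for all `k` and `Q` there is `C` such that for all `δ`,
all complex numbers `w_1, …, w_Q` and all `η < 1`, for all real vectors `ξ` with `k (m + 1)` coordinates outside a set of
Hausdorff dimension at most `(k (m + 1) - 1 / (δ + 2) ^ C + σ) / (1 - η)`, for all large `n`, ALL integer vectors
`v = (v_{il})` with `|v_{il} - (λ_n ξ_{il} + b_{n i l})| ≤ λ_n ^ η` and the algebraic numbers `α_i = ∑_l v_{il} ω_l` have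
the following property: all elliptic logarithms `p` with `℘(p) = α_i + θ_j`, the numbers `ζ(p)` and all logarithms of the
`α_i + θ_j` satisfy with the given numbers `w` no nontrivial relation of degree at most `δ` over any number field of degree
at most `δ`. This contains the vectors `v = ⌊λ_n ξ + b_n⌋`, for instance the truncated binary expansions `⌊2 ^ n ξ⌋`, and
boxes around them with `λ_n ^ (η k (m + 1))` elements.

If `λ_n` grows faster than every power of `n` (so that every `σ > 0` is possible), it follows that for ALMOST ALL real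
vectors `ξ` this is the case for every `δ` and all `n ≥ n₀(δ)`, with `η = 1 / (2 k (m + 1) (δ + 2) ^ C)`.

The sequences are very sparse, and so this does not follow from the size of the exceptional set, which is only smaller
than `T ^ (k (m + 1))` by a factor `T ^ c` with a small positive `c`. The starting result `BestApproximations` is about
the integer vectors `v` for which the values of given linear forms at `v` are close to integers.

Proof. The starting theorem `GrowingDegreeTuples` bounds the number of the exceptional vectors by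
`C T ^ (k (m + 1) - c)`; the `ξ` for which an exceptional vector is near `λ_n ξ + b_n` form a union of
`O (λ_n ^ (k (m + 1) - c))` cubes of side `O (λ_n ^ (η - 1))` in every bounded region (`Pool.Agent.Seat74.TR.dil`).
-/

set_option autoImplicit false

open Filter Topology MeasureTheory

namespace Pool.Agent.Results.MP_c9768e_nt.MultiplesOfRealVectors

open Pool.Agent.Results.MP_c9768e_nt.GrowingDegreeTuples (Related)

/-- the vectors which are related -/
def Exc (L : PeriodPair) {Q k m r : ℕ} (ω : Fin (m + 1) → ℂ) (θ : Fin r → ℕ) (δ : ℕ) (w : Fin Q → ℂ) :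
    Set (Fin k × Fin (m + 1) → ℤ) := {v | Related L δ w ω θ fun i l => v (i, l)}

/-- for infinitely many `n` there is a related vector within `λ_n ^ η` of `λ_n ξ + b_n` -/
def Often (L : PeriodPair) {Q k m r : ℕ} (ω : Fin (m + 1) → ℂ) (θ : Fin r → ℕ) (δ : ℕ) (w : Fin Q → ℂ)
    (lam : ℕ → ℝ) (b : ℕ → Fin k × Fin (m + 1) → ℝ) (η : ℝ) (ξ : Fin k × Fin (m + 1) → ℝ) : Prop :=
  {n : ℕ | ∃ v ∈ Exc L ω θ δ w, ∀ x, |(v x : ℝ) - (lam n * ξ x + b n x)| ≤ lam n ^ η}.Infinite

theorem count (L : PeriodPair) (u v : ℚ) (hu : L.g₂ = u) (hv : L.g₃ = v) {m r : ℕ} (ω : Fin (m + 1) → ℂ)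
    (hω : ∀ j, IsAlgebraic ℚ (ω j)) (hω0 : ω 0 = 1) (θ : Fin r → ℕ) (hθ : Function.Injective θ) (k Q : ℕ) :
    ∃ C : ℕ, ∀ (δ : ℕ) (w : Fin Q → ℂ) (T : ℕ), 1 ≤ T → ∀ F : Finset (Fin k × Fin (m + 1) → ℤ),
      (∀ x ∈ F, x ∈ Exc L ω θ δ w ∧ ∀ i, |x i| ≤ T) →
        (F.card : ℝ) ≤ C * (T : ℝ) ^ (((k * (m + 1) : ℕ) : ℝ) - 1 / ((δ : ℝ) + 2) ^ C) := by
  classical
  obtain ⟨C, hC⟩ := Pool.Agent.Results.MP_c9768e_nt.GrowingDegreeTuples.result L u v hu hv ω hω hω0 θ hθ k Q
  refine ⟨C, fun δ w T hT F hF => ?_⟩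
  obtain ⟨hfin, hle⟩ := hC δ w T hT
  refine le_trans ?_ hle
  rw [Nat.cast_le, ← Set.ncard_coe_finset]
  refine Set.ncard_le_ncard_of_injOn (fun x i l => x (i, l)) ?_ ?_ hfin
  · intro x hx
    obtain ⟨h1, h2⟩ := hF x hx
    exact ⟨fun i l => h2 (i, l), h1⟩
  · intro x _ y _ hxy
    funext p
    obtain ⟨i, l⟩ := p
    exact congrFun (congrFun hxy i) l

/-- **Theorem.** Let `L` be a lattice with rational invariants `g₂`, `g₃`, let `ω_0 = 1, ω_1, …, ω_m` be algebraic numbers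
and `θ_1, …, θ_r` distinct natural numbers. For all `k ≥ 1` and `Q` there is `C` with the following properties. (1) Let
`λ_n ≥ 1`, `σ ≥ 0`, the sum of the `λ_n ^ (-σ)` convergent, `|b_{n x}| ≤ M λ_n` and `η < 1`. For all `δ`, `w` the set of
the `ξ` for which, for infinitely many `n`, there is a related vector within `λ_n ^ η` of `λ_n ξ + b_n`, has dimension
at most `(k (m + 1) - 1 / (δ + 2) ^ C + σ) / (1 - η)`. (2) If the sum of the `λ_n ^ (-σ)` is convergent for all `σ > 0`,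
then for almost all `ξ`, for all `δ` and all large `n`, no related vector is within
`λ_n ^ (1 / (2 k (m + 1) (δ + 2) ^ C))` of `λ_n ξ + b_n`. -/
theorem result (L : PeriodPair) (u v : ℚ) (hu : L.g₂ = u) (hv : L.g₃ = v) {m r : ℕ} (ω : Fin (m + 1) → ℂ)
    (hω : ∀ j, IsAlgebraic ℚ (ω j)) (hω0 : ω 0 = 1) (θ : Fin r → ℕ) (hθ : Function.Injective θ) (k Q : ℕ)
    (hk : 1 ≤ k) : ∃ C : ℕ,
    (∀ (δ : ℕ) (w : Fin Q → ℂ) (lam : ℕ → ℝ) (b : ℕ → Fin k × Fin (m + 1) → ℝ) (σ M η : ℝ), (∀ n, 1 ≤ lam n) →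
      0 ≤ σ → Summable (fun n => lam n ^ (-σ)) → (∀ n x, |b n x| ≤ M * lam n) → η < 1 →
        dimH {ξ : Fin k × Fin (m + 1) → ℝ | Often L ω θ δ w lam b η ξ} ≤
          ENNReal.ofReal ((((k * (m + 1) : ℕ) : ℝ) - 1 / ((δ : ℝ) + 2) ^ C + σ) / (1 - η))) ∧
    (∀ (w : Fin Q → ℂ) (lam : ℕ → ℝ) (b : ℕ → Fin k × Fin (m + 1) → ℝ) (M : ℝ), (∀ n, 1 ≤ lam n) →
      (∀ σ : ℝ, 0 < σ → Summable fun n => lam n ^ (-σ)) → (∀ n x, |b n x| ≤ M * lam n) →
        ∀ᵐ ξ : Fin k × Fin (m + 1) → ℝ, ∀ δ : ℕ, ∀ᶠ n in atTop, ∀ v ∈ Exc L ω θ δ w,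
          ¬ ∀ x, |(v x : ℝ) - (lam n * ξ x + b n x)| ≤
            lam n ^ (1 / (2 * ((k * (m + 1) : ℕ) : ℝ) * ((δ : ℝ) + 2) ^ C))) := by
  classical
  obtain ⟨C, hC⟩ := count L u v hu hv ω hω hω0 θ hθ k Q
  have hN : 1 ≤ k * (m + 1) := Nat.mul_pos hk (Nat.succ_pos m)
  have hN1 : (1 : ℝ) ≤ ((k * (m + 1) : ℕ) : ℝ) := by exact_mod_cast hN
  have hcard : (Fintype.card (Fin k × Fin (m + 1)) : ℝ) = ((k * (m + 1) : ℕ) : ℝ) := by
    rw [Fintype.card_prod, Fintype.card_fin, Fintype.card_fin]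
  have hc1 : ∀ δ : ℕ, 1 / ((δ : ℝ) + 2) ^ C ≤ 1 := fun δ => by
    have h2 : (1 : ℝ) ≤ (δ : ℝ) + 2 := by
      have : (0 : ℝ) ≤ δ := Nat.cast_nonneg δ
      linarith
    rw [div_le_one (by positivity)]
    exact one_le_pow₀ h2
  refine ⟨C, fun δ w lam b σ M η h1 hσ hsum hb hη => ?_, fun w lam b M h1 hsum hb => ?_⟩
  · exact Pool.Agent.Seat74.TR.dil (Exc L ω θ δ w) (s := ((k * (m + 1) : ℕ) : ℝ) - 1 / ((δ : ℝ) + 2) ^ C) (C := C)
      (by linarith [hc1 δ]) (hC δ w) lam h1 hσ hsum b hb hη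
  · have hne : Nonempty (Fin k × Fin (m + 1)) := ⟨(⟨0, hk⟩, 0)⟩
    have h2 := Pool.Agent.Seat74.TR.almost_all (X := Fin k × Fin (m + 1)) (fun δ => Exc L ω θ δ w)
      (fun δ => 1 / ((δ : ℝ) + 2) ^ C) (fun δ => by positivity) hc1
      (fun δ => ⟨C, fun T hT F hF => by
        have h3 := hC δ w T hT F hF
        rwa [hcard]⟩) lam h1 hsum b hb
    refine h2.mono fun ξ hξ δ => (hξ δ).mono fun n hn v hv hcon => hn v hv fun i => ?_
    refine (hcon i).trans (le_of_eq ?_)
    congr 1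
    rw [hcard]
    have h3 : ((δ : ℝ) + 2) ^ C ≠ 0 := by positivity
    have h4 : ((k * (m + 1) : ℕ) : ℝ) ≠ 0 := by positivity
    field_simp

/-- exponential growth is sufficient in the second part -/
example {lam : ℕ → ℝ} {α : ℝ} (hα : 1 < α) (h : ∀ n, α ^ n ≤ lam n) (σ : ℝ) (hσ : 0 < σ) :
    Summable fun n => lam n ^ (-σ) :=
  Pool.Agent.Seat74.TR.summable_exp hα h σ hσ

end Pool.Agent.Results.MP_c9768e_nt.MultiplesOfRealVectors
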