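import Pool.Agent.Helper264.NT.NearK2
import Pool.Agent.Results.MP_c9768e_nt.SmallDiscs

/-!
# Split semi-elliptic logarithms on algebraic curves, at ALL tuples of points close to any tuple outside a set of small
# dimension

For `j = 1, …, n` let `L_j` be a lattice and let `t_{jl}` (`l ≤ s`), `p_{ji}` (`i ≤ a`), `q_{ji}` (`i ≤ b`) be analytic
functions on a connected open set `U_j` such that the functions `exp(t_{jl})`, `℘(p_{ji})`, `ζ(q_{ji})` are algebraic over
`ℂ(z)`, no nontrivial integral combination of the `t_{jl}` is constant, and no nontrivial combination of the `p_{ji}, q_{ji}`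
with coefficients in the ring of endomorphisms of `ℂ / L_j` is constant (the structure `Curve` of the starting file
`SmallDiscs`). The lattices and the curves may be equal or different for different `j`. If the algebraic functions are
defined over the field of algebraic numbers, the numbers `t_{jl}(y_j)`, `p_{ji}(y_j)`, `q_{ji}(y_j)` at algebraic `y_j` are
numbers as in the question.

We show: outside a subset `E` of `ℂ ^ n` of Hausdorff dimension at most `2 n - 2` all `z` in `U_1 × … × U_n` have the
following property. For all number fields `K ⊂ ℂ`, all degrees `d`, all `A` and ALL exponents `w > 0` (arbitrarily small)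
there are `B` and `T₀` such that for all `T ≥ T₀`, at ALL `n`-tuples `y` of elements of `K` of height at most `T` with
`|y_j - z_j| ≤ T ^ (-w)`, the number `π` and the `n (s + 2 (a + b))` numbers `t_{jl}(y_j)`, `p_{ji}(y_j)`, `ζ(p_{ji}(y_j))`,
`q_{ji}(y_j)`, `℘(q_{ji}(y_j))` have no relation over `K` of partial degrees at most `d` and height at most `T ^ A`, not even
an approximate one: all values are greater than `T ^ (-B)`. For `n = 1` the dimension is `0`; for `n ≥ 2` and equal curves
the points of the hyperplane `z_1 = z_2`, of dimension `2 n - 2`, have to be excluded.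

The starting results `AlmostAllTuples` and `SmallDiscs` bound the number of the exceptional tuples of height at most `T`;
`ConvergentsOfRealTuples` is about real `y`, rational tuples with `|y_j - q_j| ≤ T ^ (-2)` (or a somewhat smaller exponent)
and has an exceptional set of dimension less than `n`; it does not contain points `q` with `ζ(q)` algebraic.

Proof: the exceptional tuples lie on `C T ^ ε` hypersurfaces of degree at most `D` (helper124, helper771), and the points
near such hypersurfaces form a set of small dimension (uniform coverings of the zeros of polynomials of bounded degree,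
`Pool.Agent.Helper264.NT.mainK`); the functions on each curve are independent by Ax's theorem (`SmallDiscs`).
-/

set_option autoImplicit false

open Height
open scoped ENNReal

namespace Pool.Agent.Results.MP_c9768e_nt.TuplesNearEveryPoint

open Pool.Agent.Results.MP_c9768e_nt.SmallDiscs (Curve value value_an value_ind)

/-- the names of the `s + 2 (a + b)` functions on a curve -/
abbrev Names (s a b : ℕ) : Type := Fin s ⊕ ((Fin a ⊕ Fin b) ⊕ (Fin a ⊕ Fin b))

/-- the numbers `π` and `t_{jl}(y_j)`, `p_{ji}(y_j)`, `q_{ji}(y_j)`, `ζ(p_{ji}(y_j))`, `℘(q_{ji}(y_j))` -/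
noncomputable def numbers {n s a b : ℕ} (L : Fin n → PeriodPair) (t : Fin n → Fin s → ℂ → ℂ)
    (p : Fin n → Fin a ⊕ Fin b → ℂ → ℂ) (y : Fin n → ℂ) (x : Option (Fin n × Names s a b)) : ℂ :=
  x.elim (Real.pi : ℂ) fun c => value (L c.1) (t c.1) (p c.1) (y c.1) c.2

/-- every nonzero polynomial with coefficients in `K` of height at most `T ^ A`, of degree at most `d` in each variable,
takes at the numbers above a value of absolute value greater than `T ^ (-B)` -/
def Measure {n s a b : ℕ} (L : Fin n → PeriodPair) (t : Fin n → Fin s → ℂ → ℂ) (p : Fin n → Fin a ⊕ Fin b → ℂ → ℂ)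
    (K : IntermediateField ℚ ℂ) [NumberField K] (d : ℕ) (A B T : ℝ) (y : Fin n → K) : Prop :=
  ∀ P : MvPolynomial (Option (Fin n × Names s a b)) K, P ≠ 0 → (∀ i, P.degreeOf i ≤ d) →
    (∀ e, mulHeight₁ (P.coeff e) ≤ T ^ A) →
      T ^ (-B) < ‖MvPolynomial.eval₂ (algebraMap K ℂ) (numbers L t p fun j => (y j : ℂ)) P‖

theorem indep {s a b : ℕ} {U : Set ℂ} {L : PeriodPair} {t : Fin s → ℂ → ℂ} {p : Fin a ⊕ Fin b → ℂ → ℂ}
    (h : Curve U L t p) : Pool.Agent.Y771.KF.AIndepS (fun k z => value L t p z k) U := by
  intro P hP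
  obtain ⟨z, hz⟩ := h.nonempty
  apply value_ind h z hz P
  filter_upwards [h.isOpen.mem_nhds hz] with y hy
  exact hP y hy

/-- **Theorem.** Let `n ≥ 1` and let `(t_j, p_j)` be curves on `U_j` as above. There is a subset `E` of `ℂ ^ n` of
Hausdorff dimension at most `2 (n - 1)` such that for all `z` outside of `E` with `z_j ∈ U_j`, all number fields `K ⊂ ℂ`,
all `d`, `A` and `w > 0` there are `B` and `T₀` such that for all `T ≥ T₀` all `n`-tuples `y` of elements of `K` of height
at most `T` with `|y_j - z_j| ≤ T ^ (-w)` have the property `Measure`. -/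
theorem result {n s a b : ℕ} (hn : 1 ≤ n) (U : Fin n → Set ℂ) (L : Fin n → PeriodPair)
    (t : Fin n → Fin s → ℂ → ℂ) (p : Fin n → Fin a ⊕ Fin b → ℂ → ℂ)
    (hU : ∀ j, Curve (U j) (L j) (t j) (p j)) :
    ∃ E : Set (Fin n → ℂ), dimH E ≤ ((2 * (n - 1) : ℕ) : ℝ≥0∞) ∧ ∀ z ∉ E, (∀ j, z j ∈ U j) →
      ∀ (K : IntermediateField ℚ ℂ) [NumberField K] (d : ℕ) (A w : ℝ), 0 < w → ∃ B T₀ : ℝ, ∀ T ≥ T₀,
        ∀ y : Fin n → K, (∀ j, mulHeight₁ (y j) ≤ T ∧ ‖(y j : ℂ) - z j‖ ≤ T ^ (-w)) → Measure L t p K d A B T y := by
  classical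
  have hnn : Nonempty (Fin n) := ⟨⟨0, hn⟩⟩
  obtain ⟨E, hE1, hE2⟩ := Pool.Agent.Helper264.NT.mainK (𝕜 := ℂ) (X := Fin n) (RingHom.id ℂ) (fun _ => rfl)
    (fun j k z => value (L j) (t j) (p j) z k) (fun _ : Unit => Real.pi) U
    (fun j => (hU j).isOpen) (fun j => (hU j).isPreconnected)
    (fun j k => value_an (hU j) k) (fun j => indep (hU j)) Pool.Agent.Y124.goodXi_pi
  refine ⟨E, by simpa using hE1, fun z hz hz1 K _ d A w hw => ?_⟩
  obtain ⟨B, T0, h⟩ := hE2 z hz hz1 K d A w hw
  refine ⟨B, T0, fun T hT y hy => ?_⟩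
  refine Pool.Agent.Helper264.NT.norel_rename (Equiv.optionEquivSumPUnit (Fin n × Names s a b)) (algebraMap K ℂ)
    (fun j k z => value (L j) (t j) (p j) z k) (fun _ : Unit => Real.pi) d A B T y (h T hT y hy)
    (fun k => (hy k).1) _ ?_
  intro o
  cases o <;> rfl

end Pool.Agent.Results.MP_c9768e_nt.TuplesNearEveryPoint
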